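import Pool.Agent.H36.WT.Lib

/-!
# Trace forms: symmetry and determinants
-/

set_option autoImplicit false

open Polynomial Matrix Pool.Agent.H63.WT

namespace Pool.Agent.H36.WT

theorem coprime_iff {F : Type} [Field F] {A : F[X]} (hA : A.Monic) (h : F[X]) :
    (MM A h).det ≠ 0 ↔ IsCoprime A h := by
  constructor
  · intro hd
    by_cases hn : A.natDegree = 0
    · have h1 : A = 1 := hA.natDegree_eq_zero.1 hn
      rw [h1]
      exact isCoprime_one_left
    · have h2 : IsUnit (MM A h) := (Matrix.isUnit_iff_isUnit_det _).2 (isUnit_iff_ne_zero.2 hd)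
      obtain ⟨N, hN⟩ := h2.exists_right_inv
      have hpos : 0 < A.natDegree := Nat.pos_of_ne_zero hn
      have h3 := MM_mulVec hA h fun l => N l ⟨0, hpos⟩
      have h4 : (∑ k : Fin A.natDegree,
          C ((MM A h *ᵥ fun l => N l ⟨0, hpos⟩) k) * X ^ (k : ℕ)) = 1 := by
        rw [Finset.sum_eq_single (⟨0, hpos⟩ : Fin A.natDegree)]
        · have h5 : (MM A h *ᵥ fun l => N l ⟨0, hpos⟩) ⟨0, hpos⟩ = (MM A h * N) ⟨0, hpos⟩
            ⟨0, hpos⟩ := rfl
          rw [h5, hN]
          simp
        · intro b _ hb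
          have h5 : (MM A h *ᵥ fun l => N l ⟨0, hpos⟩) b = (MM A h * N) b ⟨0, hpos⟩ := rfl
          rw [h5, hN, Matrix.one_apply_ne hb]
          simp
        · intro h
          exact absurd (Finset.mem_univ _) h
      rw [h4] at h3
      obtain ⟨q, hq⟩ := h3
      refine ⟨-q, ∑ j : Fin A.natDegree, C (N j ⟨0, hpos⟩) * X ^ (j : ℕ), ?_⟩
      linear_combination hq
  · rintro ⟨u, v, huv⟩ hd
    have h1 : MM A (h * v) = 1 := by
      rw [← MM_one hA]
      exact MM_eq hA ⟨-u, by linear_combination huv⟩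
    rw [MM_mul hA] at h1
    have h2 := congrArg Matrix.det h1
    rw [Matrix.det_mul, hd, zero_mul, Matrix.det_one] at h2
    exact zero_ne_one h2

theorem nn_linear {F : Type} [Field F] (t : F) (h : F[X]) : nn (X - C t) h = eval t h := by
  have hA : (X - C t : F[X]).Monic := monic_X_sub_C t
  rw [nn_eq hA]
  have h1 : MM (X - C t) h = MM (X - C t) (C (eval t h)) := by
    refine MM_eq hA ?_
    rw [dvd_iff_isRoot, IsRoot.def, eval_sub, eval_C, sub_self]
  rw [h1, MM_C hA, Matrix.det_smul, Matrix.det_one, mul_one, Fintype.card_fin,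
    natDegree_X_sub_C, pow_one]

theorem pf_GDT : T_GDT := by
  intro F _ A hA
  refine ⟨det_gm_one hA, ?_, ?_, ?_, ?_, ?_, ?_⟩
  · intro h
    ext i j
    change gm A h j i = gm A h i j
    unfold gm
    rw [add_comm]
  · intro h
    rw [← coprime_iff hA, gm_eq hA h, Matrix.det_mul]
    have h1 : (gm A 1).det ≠ 0 := by
      intro h0
      have := det_gm_one_sq hA
      rw [h0, zero_mul] at this
      exact zero_ne_one this
    constructor
    · intro h2 h3
      exact h2 (by rw [h3, mul_zero])
    · intro h2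
      exact mul_ne_zero h1 h2
  · intro h h'
    rw [nn_eq hA, nn_eq hA, nn_eq hA, MM_mul hA, Matrix.det_mul]
  · intro c
    rw [nn_eq hA, MM_C hA, Matrix.det_smul, Matrix.det_one, mul_one, Fintype.card_fin]
  · intro h h' hh
    rw [gm_eq hA h, gm_eq hA h', MM_eq hA hh]
  · rintro t rfl h
    exact nn_linear t h

end Pool.Agent.H36.WT
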