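import Pool.Agent.H36.WT.Lib

/-!
# The values of a trace form
-/

set_option autoImplicit false

open Polynomial Matrix Pool.Agent.H63.WT

namespace Pool.Agent.H36.WT

theorem pf_GMV : T_GMV := by
  intro F _ A h hA
  constructor
  · intro z w
    have h1 : h * (∑ i : Fin A.natDegree, C (z i) * X ^ (i : ℕ)) *
        ∑ i : Fin A.natDegree, C (w i) * X ^ (i : ℕ) =
        ∑ i : Fin A.natDegree, ∑ j : Fin A.natDegree,
          C (z i * w j) * (h * X ^ ((i : ℕ) + (j : ℕ))) := by
      rw [mul_assoc, Finset.sum_mul_sum, Finset.mul_sum]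
      refine Finset.sum_congr rfl fun i _ => ?_
      rw [Finset.mul_sum]
      refine Finset.sum_congr rfl fun j _ => ?_
      rw [C_mul, pow_add]
      ring
    rw [h1, ← lamL_apply, map_sum]
    unfold dotProduct
    refine Finset.sum_congr rfl fun i _ => ?_
    rw [map_sum]
    unfold Matrix.mulVec dotProduct
    rw [Finset.mul_sum]
    refine Finset.sum_congr rfl fun j _ => ?_
    rw [lamL_apply, lamC]
    unfold gm
    ring
  · intro g hg
    unfold Pool.Agent.H34.N6.lam
    rw [(modByMonic_eq_self_iff hA).2]
    exact degree_lt_degree hg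

end Pool.Agent.H36.WT
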