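import Pool.Agent.H36.WT.GMM

/-!
# The norm modulo a polynomial is the resultant
-/

set_option autoImplicit false

open Polynomial Matrix Pool.Agent.H63.WT

namespace Pool.Agent.H36.WT

variable {F : Type} [Field F]

theorem MM_add {A : F[X]} (h h' : F[X]) : MM A (h + h') = MM A h + MM A h' := by
  ext k j
  rw [Matrix.add_apply]
  unfold MM
  rw [add_mul, add_modByMonic, coeff_add]

theorem MM_leftMul {A : F[X]} (hA : A.Monic) (h : F[X]) :
    MM A h = Algebra.leftMulMatrix (AdjoinRoot.powerBasis' hA).basis (AdjoinRoot.mk A h) := by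
  ext i j
  have h1 : (AdjoinRoot.powerBasis' hA).basis j = AdjoinRoot.mk A (X ^ (j : ℕ)) := by
    rw [(AdjoinRoot.powerBasis' hA).basis_eq_pow, AdjoinRoot.powerBasis'_gen, map_pow,
      AdjoinRoot.mk_X]
  rw [Algebra.leftMulMatrix_eq_repr_mul, h1, ← map_mul]
  rfl

theorem nn_lin {A : F[X]} (hA : A.Monic) (t : F) :
    nn A (X - C t) = (-1) ^ A.natDegree * eval t A := by
  have h1 : MM A (X - C t) = -(Matrix.scalar _ t - MM A X) := by
    rw [sub_eq_add_neg, ← C_neg, MM_add, MM_C hA]
    ext i j
    simp only [Matrix.add_apply, Matrix.smul_apply, Matrix.neg_apply, Matrix.sub_apply,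
      Matrix.scalar_apply, Matrix.diagonal_apply, Matrix.one_apply, smul_eq_mul]
    by_cases hij : i = j
    · rw [if_pos hij, if_pos hij]
      ring
    · rw [if_neg hij, if_neg hij]
      ring
  have h2 : (MM A X).charpoly = A := by
    have h3 := charpoly_leftMulMatrix (AdjoinRoot.powerBasis' hA)
    have h4 : MM A X = Algebra.leftMulMatrix (AdjoinRoot.powerBasis' hA).basis
        (AdjoinRoot.powerBasis' hA).gen := by
      rw [MM_leftMul hA, AdjoinRoot.powerBasis'_gen, AdjoinRoot.mk_X]
    have h5 : (MM A X).charpoly = minpoly F (AdjoinRoot.powerBasis' hA).gen := by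
      rw [h4]
      exact h3
    rw [h5, AdjoinRoot.powerBasis'_gen, AdjoinRoot.minpoly_root hA.ne_zero, hA.leadingCoeff,
      inv_one, C_1, mul_one]
  rw [nn_eq hA, h1, Matrix.det_neg, Fintype.card_fin, ← Matrix.eval_charpoly, h2]

theorem nn_mul {A : F[X]} (hA : A.Monic) (h h' : F[X]) : nn A (h * h') = nn A h * nn A h' := by
  rw [nn_eq hA, nn_eq hA, nn_eq hA, MM_mul hA, Matrix.det_mul]

theorem nn_C {A : F[X]} (hA : A.Monic) (c : F) : nn A (C c) = c ^ A.natDegree := by
  rw [nn_eq hA, MM_C hA, Matrix.det_smul, Matrix.det_one, mul_one, Fintype.card_fin]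

theorem nn_splits {A : F[X]} (hA : A.Monic) {h : F[X]} (hh : h.Splits) :
    nn A h = A.resultant h := by
  have h1 : ∀ s : Multiset F, nn A (s.map fun t => X - C t).prod =
      (-1) ^ (A.natDegree * s.card) * (s.map fun t => eval t A).prod := by
    intro s
    induction s using Multiset.induction_on with
    | empty =>
      have := nn_C hA 1
      rw [C_1, one_pow] at this
      simp [this]
    | cons a s ih =>
      rw [Multiset.map_cons, Multiset.prod_cons, nn_mul hA, ih, nn_lin hA, Multiset.map_cons,
        Multiset.prod_cons, Multiset.card_cons]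
      ring
  rw [resultant_comm, resultant_eq_prod_eval h A _ le_rfl hh]
  conv_lhs => rw [hh.eq_prod_roots, nn_mul hA, nn_C hA, h1]
  rw [hh.natDegree_eq_card_roots]
  ring

/-- the norm is the resultant -/
theorem nn_resultant {A : F[X]} (hA : A.Monic) (h : F[X]) : nn A h = A.resultant h := by
  have h1 := (pf_GMM F h.SplittingField (algebraMap F h.SplittingField) A h hA).1
  rw [nn_splits (hA.map _) (SplittingField.splits h), resultant_map_map, natDegree_map,
    natDegree_map] at h1
  exact ((algebraMap F h.SplittingField).injective h1).symm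

theorem pf_NNR (_hGDT : T_GDT) : T_NNR := by
  intro F _ A B hA hB
  refine ⟨fun h => ?_, ?_⟩
  · rw [nn_resultant hA, nn_resultant hB, nn_resultant (hA.mul hB), hA.natDegree_mul hB,
      resultant_mul_left _ _ _ _ le_rfl]
  · rw [nn_resultant hA, nn_resultant hB, resultant_comm]

end Pool.Agent.H36.WT
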