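import Pool.Agent.H36.WT.Lib

/-!
# Trace forms: squares, linear polynomials, scalars
-/

set_option autoImplicit false

open Polynomial Matrix Pool.Agent.H63.WT

namespace Pool.Agent.H36.WT

theorem cls_cast {F : Type} [Field F] {m n : ℕ} (e : m = n) (A : Matrix (Fin m) (Fin m) F)
    (B : Matrix (Fin n) (Fin n) F) (h : ∀ i j, A i j = B (Fin.cast e i) (Fin.cast e j)) :
    cls A = cls B := by
  subst e
  have h1 : A = B := by
    ext i j
    rw [h i j]
    rfl
  rw [h1]

theorem gm_symm {F : Type} [Field F] (A h : F[X]) : (gm A h)ᵀ = gm A h := by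
  ext i j
  change gm A h j i = gm A h i j
  unfold gm
  rw [add_comm]

theorem gm_sq {F : Type} [Field F] {A : F[X]} (hA : A.Monic) (h z : F[X]) :
    gm A (h * z ^ 2) = (MM A z)ᵀ * gm A h * MM A z := by
  have h1 : (MM A z)ᵀ * gm A 1 = gm A 1 * MM A z := by
    have h2 := gm_symm A z
    rw [gm_eq hA z, Matrix.transpose_mul, gm_symm] at h2
    exact h2
  rw [gm_eq hA h, ← Matrix.mul_assoc, h1, gm_eq hA (h * z ^ 2)]
  have h3 : MM A (h * z ^ 2) = MM A z * MM A h * MM A z := by
    rw [← MM_mul hA, ← MM_mul hA]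
    congr 1
    ring
  rw [h3]
  simp only [Matrix.mul_assoc]

theorem pf_SSQ (hCLS : T_CLS) (hGDT : T_GDT) : T_SSQ := by
  intro F _ h2 A hA
  refine ⟨?_, ?_, ?_⟩
  · intro h h' z hh hh' hd
    have g := hGDT F A hA
    have h3 : gm A h = (MM A z)ᵀ * gm A h' * MM A z := by
      rw [← gm_sq hA]
      exact g.2.2.2.2.2.1 _ _ hd
    have hz : IsCoprime A z := by
      obtain ⟨q, hq⟩ := hd
      obtain ⟨u, v, huv⟩ := hh
      refine ⟨u + v * q, v * h' * z, ?_⟩
      linear_combination huv - v * hq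
    obtain ⟨u, v, huv⟩ := hz
    have h4 : MM A z * MM A v = 1 := by
      rw [← MM_mul hA, ← MM_one hA]
      exact MM_eq hA ⟨-u, by linear_combination huv⟩
    have h5 : MM A v * MM A z = 1 := by
      rw [← MM_mul hA, ← MM_one hA]
      exact MM_eq hA ⟨-u, by linear_combination huv⟩
    have h6 : SN (gm A h') := ⟨g.2.1 h', (g.2.2.1 h').2 hh'⟩
    have h7 := ((hCLS F h2).2.2.1 _ _ (gm A h') (MM A z) (MM A v) h6 h4 h5).2
    unfold S
    rw [h3]
    exact h7
  · rintro t rfl h _
    have e : (X - C t : F[X]).natDegree = 1 := natDegree_X_sub_C t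
    unfold S on
    refine cls_cast e _ _ fun i j => ?_
    have hi : (i : ℕ) = 0 := by have := i.2; omega
    have hj : (j : ℕ) = 0 := by have := j.2; omega
    have h3 : gm (X - C t) h i j = ((h * X ^ ((i : ℕ) + (j : ℕ))) %ₘ (X - C t)).coeff
      ((X - C t : F[X]).natDegree - 1) := rfl
    rw [h3, hi, hj, add_zero, pow_zero, mul_one, modByMonic_X_sub_C_eq_C_eval]
    have h4 : (X - C t : F[X]).natDegree - 1 = 0 := by rw [e]
    rw [h4, coeff_C_zero]
  · intro c h
    ext i j
    rw [Matrix.smul_apply, smul_eq_mul]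
    unfold gm
    rw [mul_assoc, lamC]

end Pool.Agent.H36.WT
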