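import Pool.Agent.H63.WT.TA

/-!
# Multiplication matrices and trace forms: auxiliary lemmas
-/

set_option autoImplicit false

open Polynomial Matrix Pool.Agent.H63.WT

namespace Pool.Agent.H36.WT

variable {F : Type} [Field F]

theorem modEq {A g g' : F[X]} (hA : A.Monic) (h : A ∣ g - g') : g %ₘ A = g' %ₘ A := by
  have h1 := (modByMonic_eq_zero_iff_dvd hA).2 h
  rw [sub_modByMonic] at h1
  exact sub_eq_zero.1 h1

theorem dvdSub {A : F[X]} (_hA : A.Monic) (g : F[X]) : A ∣ g - g %ₘ A := by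
  refine ⟨g /ₘ A, ?_⟩
  have h1 := modByMonic_add_div g A
  linear_combination -h1

theorem reprF {n : ℕ} {p : F[X]} (hp : p.degree < (n : WithBot ℕ)) :
    p = ∑ k : Fin n, C (p.coeff k) * X ^ (k : ℕ) := by
  ext m
  rw [finsetSum_coeff]
  by_cases hm : m < n
  · rw [Finset.sum_eq_single (⟨m, hm⟩ : Fin n)]
    · simp
    · intro b _ hb
      rw [coeff_C_mul_X_pow, if_neg]
      intro h
      exact hb (Fin.ext h.symm)
    · intro h
      exact absurd (Finset.mem_univ _) h
  · rw [coeff_eq_zero_of_degree_lt (lt_of_lt_of_le hp (by exact_mod_cast not_lt.1 hm))]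
    symm
    refine Finset.sum_eq_zero fun k _ => ?_
    rw [coeff_C_mul_X_pow, if_neg]
    intro h
    exact hm (h ▸ k.2)

theorem reprM {A : F[X]} (hA : A.Monic) (g : F[X]) :
    g %ₘ A = ∑ k : Fin A.natDegree, C ((g %ₘ A).coeff k) * X ^ (k : ℕ) := by
  refine reprF ?_
  have h1 := degree_modByMonic_lt g hA
  rwa [degree_eq_natDegree hA.ne_zero] at h1

theorem degSum {n : ℕ} (z : Fin n → F) :
    (∑ k : Fin n, C (z k) * X ^ (k : ℕ)).degree < (n : WithBot ℕ) := by
  refine (degree_lt_iff_coeff_zero _ _).2 fun m hm => ?_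
  rw [finsetSum_coeff]
  refine Finset.sum_eq_zero fun k _ => ?_
  rw [coeff_C_mul_X_pow, if_neg]
  intro h
  have := k.2
  omega

theorem coeffSum {n : ℕ} (z : Fin n → F) (i : Fin n) :
    (∑ k : Fin n, C (z k) * X ^ (k : ℕ)).coeff i = z i := by
  rw [finsetSum_coeff, Finset.sum_eq_single i]
  · simp
  · intro b _ hb
    rw [coeff_C_mul_X_pow, if_neg]
    intro h
    exact hb (Fin.ext h.symm)
  · intro h
    exact absurd (Finset.mem_univ _) h

/-- the functional `lam` as a linear map -/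
noncomputable def lamL (A : F[X]) : F[X] →ₗ[F] F :=
  (lcoeff F (A.natDegree - 1)).comp (modByMonicHom A)

theorem lamL_apply (A g : F[X]) : lamL A g = Pool.Agent.H34.N6.lam A g := rfl

theorem lamC (A g : F[X]) (c : F) :
    Pool.Agent.H34.N6.lam A (C c * g) = c * Pool.Agent.H34.N6.lam A g := by
  rw [← lamL_apply, ← lamL_apply, ← smul_eq_C_mul, map_smul, smul_eq_mul]

theorem lamEq {A g g' : F[X]} (hA : A.Monic) (h : A ∣ g - g') :
    Pool.Agent.H34.N6.lam A g = Pool.Agent.H34.N6.lam A g' := by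
  unfold Pool.Agent.H34.N6.lam
  rw [modEq hA h]

/-- the matrix of the multiplication by `h` modulo `A` -/
noncomputable def MM (A h : F[X]) : Matrix (Fin A.natDegree) (Fin A.natDegree) F :=
  fun k j => ((h * X ^ (j : ℕ)) %ₘ A).coeff k

/-- multiplication of a vector -/
theorem MM_mulVec {A : F[X]} (hA : A.Monic) (h : F[X]) (z : Fin A.natDegree → F) :
    A ∣ h * (∑ j : Fin A.natDegree, C (z j) * X ^ (j : ℕ)) -
      ∑ k : Fin A.natDegree, C ((MM A h *ᵥ z) k) * X ^ (k : ℕ) := by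
  have h1 : (∑ k : Fin A.natDegree, C ((MM A h *ᵥ z) k) * X ^ (k : ℕ)) =
      ∑ j : Fin A.natDegree, C (z j) * ((h * X ^ (j : ℕ)) %ₘ A) := by
    have h2 : ∀ j : Fin A.natDegree, C (z j) * ((h * X ^ (j : ℕ)) %ₘ A) =
        ∑ k : Fin A.natDegree, C (MM A h k j * z j) * X ^ (k : ℕ) := by
      intro j
      conv_lhs => rw [reprM hA (h * X ^ (j : ℕ)), Finset.mul_sum]
      refine Finset.sum_congr rfl fun k _ => ?_
      rw [C_mul]
      unfold MM
      ring
    rw [Finset.sum_congr rfl fun j _ => h2 j, Finset.sum_comm]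
    refine Finset.sum_congr rfl fun k _ => ?_
    rw [← Finset.sum_mul, ← map_sum]
    rfl
  rw [h1, Finset.mul_sum, ← Finset.sum_sub_distrib]
  refine Finset.dvd_sum fun j _ => ?_
  have h3 := dvdSub hA (h * X ^ (j : ℕ))
  obtain ⟨q, hq⟩ := h3
  refine ⟨C (z j) * q, ?_⟩
  linear_combination C (z j) * hq

theorem MM_eq {A h h' : F[X]} (hA : A.Monic) (hh : A ∣ h - h') : MM A h = MM A h' := by
  ext k j
  unfold MM
  rw [modEq hA]
  obtain ⟨q, hq⟩ := hh
  exact ⟨q * X ^ (j : ℕ), by linear_combination X ^ (j : ℕ) * hq⟩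

theorem MM_mul {A : F[X]} (hA : A.Monic) (h h' : F[X]) : MM A (h * h') = MM A h * MM A h' := by
  ext k j
  have h1 := MM_mulVec hA h fun l => MM A h' l j
  have h2 := dvdSub hA (h' * X ^ (j : ℕ))
  have h3 : (h * h' * X ^ (j : ℕ)) %ₘ A =
      ∑ k : Fin A.natDegree, C ((MM A h *ᵥ fun l => MM A h' l j) k) * X ^ (k : ℕ) := by
    have h5 : (∑ k : Fin A.natDegree,
        C ((MM A h *ᵥ fun l => MM A h' l j) k) * X ^ (k : ℕ)) %ₘ A =
        ∑ k : Fin A.natDegree, C ((MM A h *ᵥ fun l => MM A h' l j) k) * X ^ (k : ℕ) := by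
      rw [modByMonic_eq_self_iff hA, degree_eq_natDegree hA.ne_zero]
      exact degSum _
    rw [← h5]
    refine modEq hA ?_
    have h6 : (∑ l : Fin A.natDegree, C (MM A h' l j) * X ^ (l : ℕ)) =
        (h' * X ^ (j : ℕ)) %ₘ A := (reprM hA (h' * X ^ (j : ℕ))).symm
    rw [h6] at h1
    obtain ⟨q, hq⟩ := h1
    obtain ⟨r, hr⟩ := h2
    exact ⟨q + h * r, by linear_combination hq + h * hr⟩
  have h4 : MM A (h * h') k j = ((h * h' * X ^ (j : ℕ)) %ₘ A).coeff k := rfl
  rw [h4, h3, coeffSum]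
  rfl

theorem MM_C {A : F[X]} (hA : A.Monic) (c : F) : MM A (C c) = c • (1 : Matrix _ _ F) := by
  ext k j
  have h1 : (C c * X ^ (j : ℕ) : F[X]) %ₘ A = C c * X ^ (j : ℕ) := by
    rw [modByMonic_eq_self_iff hA, degree_eq_natDegree hA.ne_zero]
    refine (degree_C_mul_X_pow_le _ _).trans_lt ?_
    exact_mod_cast j.2
  unfold MM
  rw [h1, coeff_C_mul_X_pow, Matrix.smul_apply, Matrix.one_apply, smul_eq_mul]
  by_cases h : k = j
  · rw [if_pos h, if_pos (by rw [h]), mul_one]
  · rw [if_neg h, if_neg (fun h' => h (Fin.ext h')), mul_zero]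

theorem MM_one {A : F[X]} (hA : A.Monic) : MM A 1 = 1 := by
  rw [← C_1, MM_C hA, one_smul]

/-- the trace form is the trace form of one times the matrix of the multiplication -/
theorem gm_eq {A : F[X]} (hA : A.Monic) (h : F[X]) : gm A h = gm A 1 * MM A h := by
  ext i j
  have h1 : gm A h i j = Pool.Agent.H34.N6.lam A (∑ k : Fin A.natDegree,
      C (MM A h k j) * (1 * X ^ ((i : ℕ) + (k : ℕ)))) := by
    refine lamEq hA ?_
    have h2 := dvdSub hA (h * X ^ (j : ℕ))
    rw [reprM hA] at h2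
    obtain ⟨q, hq⟩ := h2
    refine ⟨X ^ (i : ℕ) * q, ?_⟩
    have h3 : (∑ k : Fin A.natDegree, C (MM A h k j) * (1 * X ^ ((i : ℕ) + (k : ℕ)))) =
        X ^ (i : ℕ) * ∑ k : Fin A.natDegree,
          C (((h * X ^ (j : ℕ)) %ₘ A).coeff k) * X ^ (k : ℕ) := by
      rw [Finset.mul_sum]
      refine Finset.sum_congr rfl fun k _ => ?_
      rw [pow_add]
      unfold MM
      ring
    rw [h3, pow_add]
    linear_combination X ^ (i : ℕ) * hq
  rw [h1, ← lamL_apply, map_sum, Matrix.mul_apply]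
  refine Finset.sum_congr rfl fun k _ => ?_
  rw [lamL_apply, lamC, mul_comm]
  rfl

/-- antitriangular matrices -/
theorem detAnti : ∀ (n : ℕ) (H : Matrix (Fin n) (Fin n) F),
    (∀ i j : Fin n, (i : ℕ) + (j : ℕ) + 1 < n → H i j = 0) →
    (∀ i j : Fin n, (i : ℕ) + (j : ℕ) + 1 = n → H i j = 1) → H.det = (-1) ^ (n * (n - 1) / 2)
  | 0, H, _, _ => by simp
  | n + 1, H, h0, h1 => by
    rw [Matrix.det_succ_row_zero, Fin.sum_univ_castSucc, Finset.sum_eq_zero, zero_add,
      h1 0 (Fin.last n) (by simp), detAnti n]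
    · have h2 : (n + 1) * (n + 1 - 1) / 2 = n + n * (n - 1) / 2 := by
        have h3 : (n + 1) * (n + 1 - 1) = n * (n - 1) + n * 2 := by
          rcases n with _ | n
          · rfl
          · simp only [Nat.add_sub_cancel]
            ring
        rw [h3, Nat.add_mul_div_right _ _ (by norm_num)]
        ring
      rw [h2, pow_add, Fin.val_last]
      ring
    · intro i j hij
      rw [Matrix.submatrix_apply]
      refine h0 _ _ ?_
      rw [Fin.succAbove_last, Fin.val_succ, Fin.val_castSucc]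
      omega
    · intro i j hij
      rw [Matrix.submatrix_apply]
      refine h1 _ _ ?_
      rw [Fin.succAbove_last, Fin.val_succ, Fin.val_castSucc]
      omega
    · intro j _
      rw [h0 0 (Fin.castSucc j), mul_zero, zero_mul]
      rw [Fin.val_castSucc]
      have := j.2
      simp only [Fin.val_zero]
      omega

theorem det_gm_one {A : F[X]} (hA : A.Monic) :
    (gm A 1).det = (-1) ^ (A.natDegree * (A.natDegree - 1) / 2) := by
  have key : ∀ i j : Fin A.natDegree, (i : ℕ) + (j : ℕ) + 1 ≤ A.natDegree →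
      gm A 1 i j = if (i : ℕ) + (j : ℕ) + 1 = A.natDegree then 1 else 0 := by
    intro i j hij
    have h1 : (1 * X ^ ((i : ℕ) + (j : ℕ)) : F[X]) %ₘ A = X ^ ((i : ℕ) + (j : ℕ)) := by
      rw [one_mul, modByMonic_eq_self_iff hA, degree_eq_natDegree hA.ne_zero, degree_X_pow]
      exact_mod_cast (by omega : (i : ℕ) + (j : ℕ) < A.natDegree)
    have h2 : gm A 1 i j = ((1 * X ^ ((i : ℕ) + (j : ℕ)) : F[X]) %ₘ A).coeff
      (A.natDegree - 1) := rfl
    rw [h2, h1, coeff_X_pow]
    by_cases h3 : (i : ℕ) + (j : ℕ) + 1 = A.natDegree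
    · rw [if_pos h3, if_pos (by omega)]
    · rw [if_neg h3, if_neg (by omega)]
  refine detAnti _ _ (fun i j hij => ?_) fun i j hij => ?_
  · rw [key i j hij.le, if_neg hij.ne]
  · rw [key i j hij.le, if_pos hij]

theorem det_gm_one_sq {A : F[X]} (hA : A.Monic) : (gm A 1).det * (gm A 1).det = 1 := by
  rw [det_gm_one hA, ← mul_pow]
  simp

theorem nn_eq {A : F[X]} (hA : A.Monic) (h : F[X]) : nn A h = (MM A h).det := by
  unfold nn
  rw [gm_eq hA h, Matrix.det_mul]
  linear_combination (MM A h).det * det_gm_one_sq hA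

end Pool.Agent.H36.WT
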