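import Pool.Agent.H36.WT.Lib

/-!
# Trace forms and homomorphisms of fields
-/

set_option autoImplicit false

open Polynomial Matrix Pool.Agent.H63.WT

namespace Pool.Agent.H36.WT

theorem linIndep_comp {F E : Type} [Field F] [Field E] (φ : F →+* E) {ι κ : Type} [Fintype ι]
    {r : ℕ} {b : Fin r → ι → F} (h : LinearIndependent F b) (e : κ ≃ ι) :
    LinearIndependent E (fun i x => φ (b i (e x))) := by
  have h1 : LinearIndependent E (fun i => φ ∘ b i) := by
    let := φ.toAlgebra
    exact linearIndependent_algebraMap_comp_iff.2 h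
  rw [Fintype.linearIndependent_iff] at h1 ⊢
  intro g hg
  refine h1 g ?_
  ext x
  have h2 := congrFun hg (e.symm x)
  rw [Finset.sum_apply] at h2 ⊢
  simp only [Pi.smul_apply, Equiv.apply_symm_apply, Pi.zero_apply, Function.comp_apply] at h2 ⊢
  exact h2

theorem pf_GMM : T_GMM := by
  intro F E _ _ φ A h hA
  have e : (A.map φ).natDegree = A.natDegree := hA.natDegree_map φ
  have key : ∀ (g : F[X]) (i j), gm (A.map φ) (g.map φ) i j =
      φ (gm A g (Fin.cast e i) (Fin.cast e j)) := by
    intro g i j
    have h1 : gm (A.map φ) (g.map φ) i j = (((g.map φ) * X ^ ((i : ℕ) + (j : ℕ))) %ₘ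
      A.map φ).coeff ((A.map φ).natDegree - 1) := rfl
    have h2 : gm A g (Fin.cast e i) (Fin.cast e j) = ((g * X ^ ((i : ℕ) + (j : ℕ))) %ₘ
      A).coeff (A.natDegree - 1) := rfl
    have h3 : (A.map φ).natDegree - 1 = A.natDegree - 1 := by rw [e]
    rw [h1, h2, h3, ← coeff_map, map_modByMonic φ hA, Polynomial.map_mul, Polynomial.map_pow,
      map_X]
  have hdet : ∀ g : F[X], (gm (A.map φ) (g.map φ)).det = φ (gm A g).det := by
    intro g
    have h1 : gm (A.map φ) (g.map φ) =
        (φ.mapMatrix (gm A g)).submatrix (finCongr e) (finCongr e) := by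
      ext i j
      rw [key]
      rfl
    rw [h1, Matrix.det_submatrix_equiv_self, ← RingHom.map_det]
  refine ⟨?_, ?_, e, key h⟩
  · unfold nn
    rw [hdet, map_mul]
    have h1 := hdet 1
    rw [Polynomial.map_one] at h1
    rw [h1]
  · rintro ⟨r, hr, b, hb, h0⟩
    refine ⟨r, ?_, fun i x => φ (b i (finCongr e x)), linIndep_comp φ hb (finCongr e), ?_⟩
    · rw [Fintype.card_fin] at hr ⊢
      rw [e, hr]
    · intro i j
      have h1 := congrArg φ (h0 i j)
      rw [map_zero] at h1
      rw [← h1]
      unfold dotProduct Matrix.mulVec dotProduct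
      rw [map_sum, ← Equiv.sum_comp (finCongr e)]
      refine Finset.sum_congr rfl fun x _ => ?_
      rw [map_mul, map_sum, ← Equiv.sum_comp (finCongr e)]
      congr 1
      refine Finset.sum_congr rfl fun y _ => ?_
      rw [map_mul]
      exact congrArg (· * _) (key h x y)

end Pool.Agent.H36.WT
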