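import Pool.Agent.H38.WT.Targets

/-!
# Row SK of the board wt_modules
-/

set_option autoImplicit false

open Finset

namespace Pool.Agent.H36.WT

open Pool.Agent.H38.WT

theorem low_eq {n : ℕ} (hn : 4 ≤ n) : univ.filter (fun x : Fin (n + 1) => (x : ℕ) ≤ 1) =
    {⟨0, by omega⟩, ⟨1, by omega⟩} := by
  ext x
  simp only [mem_filter, mem_univ, true_and, mem_insert, mem_singleton, Fin.ext_iff]
  omega

theorem pf_SK (h1 : T_SB) (h2 : T_SD) (h3 : T_SE) (h4 : T_PT) (h5 : T_SF) (h6 : T_SG)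
    (h7 : T_SJ) : T_SK := by
  classical
  intro n hn
  have eI := h1 n (pI n)
  have eJ := h1 n (pJ n)
  have hSm : ∑ x, Sm (pJ n) x = ∑ x, Sm (pI n) x := by
    refine sum_congr rfl fun x _ => ?_
    rw [(h4 n (by omega)).2.2.2.2]
    exact h2 n (pI n) (sw n) x
  -- the pairs with smaller element at least two
  have key : ∀ T : SimpleGraph (Fin n),
      ∑ x, ∑ x' ∈ univ.filter (fun x' => x < x'), Pr T x x' =
      (∑ x' ∈ univ.filter (fun x' => (⟨0, by omega⟩ : Fin (n + 1)) < x'), Pr T ⟨0, by omega⟩ x' +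
        ∑ x' ∈ univ.filter (fun x' => (⟨1, by omega⟩ : Fin (n + 1)) < x'), Pr T ⟨1, by omega⟩ x') +
      ∑ x ∈ univ.filter (fun x : Fin (n + 1) => ¬ (x : ℕ) ≤ 1),
        ∑ x' ∈ univ.filter (fun x' => x < x'), Pr T x x' := by
    intro T
    rw [← sum_filter_add_sum_filter_not univ (fun x : Fin (n + 1) => (x : ℕ) ≤ 1), low_eq hn,
      sum_pair (by simp [Fin.ext_iff])]
  have hbig : ∑ x ∈ univ.filter (fun x : Fin (n + 1) => ¬ (x : ℕ) ≤ 1),
        ∑ x' ∈ univ.filter (fun x' => x < x'), Pr (pI n) x x' =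
      ∑ x ∈ univ.filter (fun x : Fin (n + 1) => ¬ (x : ℕ) ≤ 1),
        ∑ x' ∈ univ.filter (fun x' => x < x'), Pr (pJ n) x x' := by
    refine sum_congr rfl fun x hx => sum_congr rfl fun x' hx' => ?_
    have a1 : ¬ (x : ℕ) ≤ 1 := (mem_filter.1 hx).2
    have a2 : x < x' := (mem_filter.1 hx').2
    have a3 : (x : ℕ) < x' := a2
    exact h3 n (by omega) x x' (by omega) (by omega)
  -- the increasing path
  have hI : n ≤ ∑ x' ∈ univ.filter (fun x' => (⟨0, by omega⟩ : Fin (n + 1)) < x'),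
      Pr (pI n) ⟨0, by omega⟩ x' := by
    have hc : (univ.filter (fun x' => (⟨0, by omega⟩ : Fin (n + 1)) < x')).card = n := by
      have e : univ.filter (fun x' => (⟨0, by omega⟩ : Fin (n + 1)) < x') =
          univ.erase (⟨0, by omega⟩ : Fin (n + 1)) := by
        ext x
        simp only [mem_filter, mem_univ, true_and, mem_erase, and_true, Fin.lt_def, ne_eq,
          Fin.ext_iff]
        omega
      rw [e, card_erase_of_mem (mem_univ _), card_univ, Fintype.card_fin]
      omega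
    calc n = ∑ _x' ∈ univ.filter (fun x' => (⟨0, by omega⟩ : Fin (n + 1)) < x'), 1 := by
          rw [sum_const, hc, smul_eq_mul, mul_one]
      _ ≤ _ := sum_le_sum fun x' hx' => h5 n (by omega) _ x' rfl (mem_filter.1 hx').2
  -- the other path
  have hJ0 : ∑ x' ∈ univ.filter (fun x' => (⟨0, by omega⟩ : Fin (n + 1)) < x'),
      Pr (pJ n) ⟨0, by omega⟩ x' ≤ 72 := by
    have hsub : ({⟨1, by omega⟩, ⟨2, by omega⟩} : Finset (Fin (n + 1))) ⊆
        univ.filter (fun x' => (⟨0, by omega⟩ : Fin (n + 1)) < x') := by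
      intro x hx
      simp only [mem_insert, mem_singleton, Fin.ext_iff] at hx
      simp only [mem_filter, mem_univ, true_and, Fin.lt_def]
      omega
    rw [← sum_subset hsub, sum_pair (by simp [Fin.ext_iff])]
    · have b1 := h7 n hn ⟨0, by omega⟩ ⟨1, by omega⟩ (by simp) (by simp [Fin.lt_def]) (by simp)
      have b2 := h7 n hn ⟨0, by omega⟩ ⟨2, by omega⟩ (by simp) (by simp [Fin.lt_def]) (by simp)
      omega
    · intro x hx hx'
      simp only [mem_insert, mem_singleton, Fin.ext_iff] at hx'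
      have a1 : (⟨0, by omega⟩ : Fin (n + 1)) < x := (mem_filter.1 hx).2
      simp only [Fin.lt_def] at a1
      exact h6 n hn _ x (by simp) (by omega)
  have hJ1 : ∑ x' ∈ univ.filter (fun x' => (⟨1, by omega⟩ : Fin (n + 1)) < x'),
      Pr (pJ n) ⟨1, by omega⟩ x' ≤ 36 := by
    have hsub : ({⟨2, by omega⟩} : Finset (Fin (n + 1))) ⊆
        univ.filter (fun x' => (⟨1, by omega⟩ : Fin (n + 1)) < x') := by
      intro x hx
      simp only [mem_singleton, Fin.ext_iff] at hx
      simp only [mem_filter, mem_univ, true_and, Fin.lt_def]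
      omega
    rw [← sum_subset hsub, sum_singleton]
    · exact h7 n hn ⟨1, by omega⟩ ⟨2, by omega⟩ (by simp) (by simp [Fin.lt_def]) (by simp)
    · intro x hx hx'
      simp only [mem_singleton, Fin.ext_iff] at hx'
      have a1 : (⟨1, by omega⟩ : Fin (n + 1)) < x := (mem_filter.1 hx).2
      simp only [Fin.lt_def] at a1
      exact h6 n hn _ x (by simp) (by omega)
  rw [key (pI n), hbig] at eI
  rw [key (pJ n), hSm] at eJ
  omega

end Pool.Agent.H36.WT
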